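import Pool.Agent.Helper87_UT.Stmts

/-!
# UT: binary digits
-/

set_option autoImplicit false

namespace Pool.Agent.UT.H38

open Pool.Agent.UT

theorem val_succ (s : ℕ) (c : Fin (s + 1) → Bool) :
    val (List.ofFn c) = (c 0).toNat + 2 * val (List.ofFn fun i : Fin s => c i.succ) := by
  rw [List.ofFn_succ]
  rfl

theorem val_all : ValStmt := by
  intro s
  induction s with
  | zero =>
    refine ⟨fun c => by simp [val], fun m hm => ⟨fun i => i.elim0, ?_, fun d _ => ?_⟩⟩
    · have : m = 0 := by simpa using hm
      subst this
      simp [val]
    · funext i
      exact i.elim0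
  | succ s ih =>
    refine ⟨fun c => ?_, fun m hm => ?_⟩
    · rw [val_succ]
      have h1 := ih.1 (fun i => c i.succ)
      have h2 : (c 0).toNat ≤ 1 := Bool.toNat_le _
      rw [pow_succ]
      omega
    · have hm' : m / 2 < 2 ^ s := by
        rw [pow_succ] at hm
        omega
      obtain ⟨c, hc, hu⟩ := ih.2 (m / 2) hm'
      refine ⟨Fin.cons (decide (m % 2 = 1)) c, ?_, ?_⟩
      · show val (List.ofFn _) = m
        rw [val_succ]
        have h1 : (fun i : Fin s => (Fin.cons (decide (m % 2 = 1)) c : Fin (s + 1) → Bool) i.succ) =
            c := by
          funext i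
          simp
        rw [h1]
        have hc' : val (List.ofFn c) = m / 2 := hc
        rw [hc', Fin.cons_zero]
        by_cases h : m % 2 = 1
        · simp [h]
          omega
        · simp [h]
          omega
      · intro d hd
        have hd' : val (List.ofFn d) = m := hd
        rw [val_succ] at hd'
        have h2 : (d 0).toNat ≤ 1 := Bool.toNat_le _
        have h3 : val (List.ofFn fun i : Fin s => d i.succ) = m / 2 := by omega
        have h4 : (d 0).toNat = m % 2 := by omega
        have h5 : (fun i : Fin s => d i.succ) = c := hu _ h3
        have h6 : d 0 = decide (m % 2 = 1) := by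
          cases h : d 0
          · rw [h] at h4
            simp at h4
            simp [← h4]
          · rw [h] at h4
            simp at h4
            simp [← h4]
        funext i
        refine Fin.cases ?_ (fun j => ?_) i
        · rw [Fin.cons_zero, h6]
        · rw [Fin.cons_succ, ← h5]

end Pool.Agent.UT.H38
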